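import Mathlib

/-!
The outer automorphism group of a free group.
-/

set_option autoImplicit false

namespace Pool.Agent.Helper20.OutF

/-- the subgroup of the inner automorphisms of the free group of rank `n` -/
def Inn (n : ℕ) : Subgroup (MulAut (FreeGroup (Fin n))) :=
  (MulAut.conj : FreeGroup (Fin n) →* MulAut (FreeGroup (Fin n))).range

instance Inn_normal (n : ℕ) : (Inn n).Normal := by
  constructor
  rintro _ ⟨g, rfl⟩ φ
  refine ⟨φ g, ?_⟩
  ext x
  simp [MulAut.conj_apply]

/-- the outer automorphism group of the free group of rank `n` -/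
abbrev OutFree (n : ℕ) : Type := MulAut (FreeGroup (Fin n)) ⧸ Inn n

end Pool.Agent.Helper20.OutF
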