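import Pool.Agent.Helper30.WHypCriterion

set_option autoImplicit false

/-!
The criterion of `Pool.Agent.Helper30.WHypCriterion` for a fixed number of commuting factors: it gives a lower bound for the
weak hyperbolic dimension.
-/

namespace Pool.Agent.Helper20.OutF

open Pointwise
open Pool.Agent.Helper30 Pool.Agent.Helper30.WHyp

variable {G : Type*} [Group G] {S : Set G}

open Classical in
/-- a group with `M` pairwise commuting finite subsets of superpolynomial growth has weak hyperbolic dimension at least `M` -/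
theorem criterion_lower (hfin : S.Finite) (hS : Subgroup.closure S = ⊤) [MetricSpace G]
    (hd : ∀ g h : G, dist g h = wordLength S (g⁻¹ * h)) (M : ℕ) (T' : Fin M → Finset G) (hT1' : ∀ i, 1 ∈ T' i)
    (hTc' : ∀ i j, i ≠ j → ∀ s ∈ T' i, ∀ t ∈ T' j, Commute s t)
    (hTg' : ∀ k C : ℕ, ∃ L : ℕ, ∀ i, C * (L + 1) ^ k < ((T' i) ^ L).card) :
    (M : ℕ∞) ≤ weakHyperbolicDimension G := by
  unfold weakHyperbolicDimension
  refine le_iInf₂ fun n hn => ?_
  by_contra hlt
  rw [not_le, Nat.cast_lt] at hlt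
  set m := n + 1 with hm
  obtain ⟨T, hT1, hTc, hTg⟩ : ∃ T : Fin m → Finset G, (∀ i, 1 ∈ T i) ∧
      (∀ i j, i ≠ j → ∀ s ∈ T i, ∀ t ∈ T j, Commute s t) ∧
      ∀ k C : ℕ, ∃ L : ℕ, ∀ i, C * (L + 1) ^ k < ((T i) ^ L).card := by
    refine ⟨fun i => T' (Fin.castLE hlt i), fun i => hT1' _, fun i j hij => hTc' _ _ ?_, fun k C => ?_⟩
    · intro h
      exact hij (Fin.castLE_injective hlt h)
    · obtain ⟨L, hL⟩ := hTg' k C
      exact ⟨L, fun i => hL _⟩
  set H : Fin m → Subgroup G := fun i => Subgroup.closure (T i : Set G) with hH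
  have hcomm : Pairwise fun i j => ∀ x y : G, x ∈ H i → y ∈ H j → Commute x y :=
    fun i j hij => commute_closure (hTc i j hij)
  set Φ := Subgroup.noncommPiCoprod hcomm with hΦ
  obtain ⟨D, hD⟩ : ∃ D, ∀ i, ∀ t ∈ T i, wordLength S t ≤ D := by
    refine ⟨∑ i, ∑ t ∈ T i, wordLength S t, ?_⟩
    intro i t ht
    exact (Finset.single_le_sum (f := fun t => wordLength S t) (fun _ _ => Nat.zero_le _) ht).trans
      (Finset.single_le_sum (f := fun i => ∑ t ∈ T i, wordLength S t) (fun _ _ => Nat.zero_le _)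
        (Finset.mem_univ i))
  obtain ⟨𝒴, h𝒴, 𝓕, hsub, hdisj, hcov⟩ := hn (m * (D * 2) + 1) (by positivity)
  obtain ⟨k, P, hP⟩ := polynomial_growth h𝒴 (ball_finite hfin hS hd) (m * D)
  obtain ⟨L', hL'⟩ := hTg (k + 2 * m) (m * (P * 3 ^ (k + 2 * m)))
  set L := L' + 2 with hL
  -- word paths
  have hpath : ∀ (i : Fin m) (g : G), ∃ γ : ℕ → H i, (∀ j, j ≤ 1 → γ j = 1) ∧
      (∀ j, (((γ j)⁻¹ * γ (j + 1) : H i) : G) ∈ T i) ∧
      (g ∈ T i ^ L' → ∀ j, L ≤ j + 1 → (γ j : G) = g) := by
    intro i g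
    by_cases hg : g ∈ T i ^ L'
    · obtain ⟨γ, h0, hs, he⟩ := exists_path' (T i) (hT1 i) L' g hg
      have hmem : ∀ j, γ j ∈ H i := by
        intro j
        induction j with
        | zero => rw [h0 0 (by omega)]; exact one_mem _
        | succ j ih =>
          have h1 : γ (j + 1) = γ j * ((γ j)⁻¹ * γ (j + 1)) := by rw [mul_inv_cancel_left]
          rw [h1]
          exact mul_mem ih (Subgroup.subset_closure (hs j))
      exact ⟨fun j => ⟨γ j, hmem j⟩, fun j hj => Subtype.ext (h0 j hj), hs, fun _ => he⟩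
    · exact ⟨fun _ => 1, fun _ _ => rfl, fun _ => by simpa using hT1 i, fun h => absurd h hg⟩
  choose γ hγ0 hγs hγe using hpath
  have hγD : ∀ (i : Fin m) (g : G) (j : ℕ), wordLength S (((γ i g j : G))⁻¹ * γ i g (j + 1)) ≤ D := by
    intro i g j
    exact hD i _ (hγs i g j)
  set φ : (Fin m → G) → (Fin m → ℕ) → G := fun h x => Φ (fun i => γ i (h i) (x i)) with hφ
  -- colours
  have hcol : ∀ g : G, ∃ i, ∃ Y ∈ 𝓕 i, g ∈ Y := by
    intro g
    have : g ∈ ⋃ i, ⋃₀ 𝓕 i := by rw [hcov]; trivial
    simpa [Set.mem_iUnion, Set.mem_sUnion] using this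
  choose col hcol' using hcol
  -- nearby grid points
  have hclose : ∀ (h : Fin m → G) (x y : Fin m → ℕ), (∀ k, x k ≤ y k + 2) → (∀ k, y k ≤ x k + 2) →
      dist (φ h x) (φ h y) ≤ m * (D * 2) := by
    intro h x y hxy hyx
    rw [hd]
    have h1 : (φ h x)⁻¹ * φ h y = Φ (fun i => (γ i (h i) (x i))⁻¹ * γ i (h i) (y i)) := by
      rw [hφ]
      simp only
      rw [← map_inv, ← map_mul]
      rfl
    rw [h1, hΦ, Subgroup.noncommPiCoprod_apply]
    have h2 := wordLength_noncommProd hS Finset.univ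
      (fun i => (((γ i (h i) (x i))⁻¹ * γ i (h i) (y i) : H i) : G)) (fun i _ j _ hij =>
        hcomm hij _ _ (Subtype.prop _) (Subtype.prop _))
    have h3 : ∑ i : Fin m, wordLength S (((γ i (h i) (x i))⁻¹ * γ i (h i) (y i) : H i) : G) ≤
        m * (D * 2) := by
      refine (Finset.sum_le_card_nsmul _ _ (D * 2) ?_).trans (by simp)
      intro i _
      exact path_close hS D (fun j => (γ i (h i) j : G)) (hγD i (h i)) _ _ (hxy i) (hyx i)
    exact_mod_cast h2.trans h3
  have hfar : ∀ (h : Fin m → G) (y : Fin m → ℕ), (∀ k, y k ≤ L) →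
      dist (φ h y) 1 ≤ ((m * D : ℕ) : ℝ) * L := by
    intro h y hy
    rw [dist_comm, hd, inv_one, one_mul, hφ]
    simp only
    rw [hΦ, Subgroup.noncommPiCoprod_apply]
    have h2 := wordLength_noncommProd hS Finset.univ
      (fun i => ((γ i (h i) (y i) : H i) : G)) (fun i _ j _ hij =>
        hcomm hij _ _ (Subtype.prop _) (Subtype.prop _))
    have h3 : ∑ i : Fin m, wordLength S ((γ i (h i) (y i) : H i) : G) ≤ m * (D * L) := by
      refine (Finset.sum_le_card_nsmul _ _ (D * L) ?_).trans (by simp)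
      intro i _
      have h4 := path_length hS D (fun j => (γ i (h i) j : G)) (hγD i (h i)) 0 (y i)
      simp only [hγ0 i (h i) 0 (by omega), Subgroup.coe_one, inv_one, one_mul, zero_add] at h4
      exact h4.trans (Nat.mul_le_mul_left _ (hy i))
    have h5 : wordLength S (Finset.noncommProd Finset.univ
      (fun i => ((γ i (h i) (y i) : H i) : G)) (fun i _ j _ hij =>
        hcomm hij _ _ (Subtype.prop _) (Subtype.prop _))) ≤ m * D * L := by
      rw [mul_assoc]
      exact h2.trans h3
    exact_mod_cast h5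
  -- the good triples
  set Good : (Fin m → G) → Fin m → (Fin m → ℕ) → (Fin m → ℕ) → Prop := fun h i x y =>
    (∀ k, y k ≤ L) ∧ x i ≤ 1 ∧ L ≤ y i + 1 ∧ ∃ Y ∈ 𝓕 i, φ h x ∈ Y ∧ φ h y ∈ Y with hGood
  refine counting (m := m) (by omega) (fun i => T i ^ L') ((L + 1) ^ (2 * m)) (P * (L + 1) ^ k)
    (Fintype.piFinset (fun _ => Finset.range (L + 1))) ?_ ?_ Good ?_ ?_
  · rw [Fintype.card_piFinset]
    simp only [Finset.card_range, Finset.prod_const, Finset.card_univ, Fintype.card_fin]
    rw [← pow_add, two_mul]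
  · intro i
    refine lt_of_le_of_lt ?_ (hL' i)
    have h1 : L + 1 ≤ 3 * (L' + 1) := by omega
    calc m * ((L + 1) ^ (2 * m) * (P * (L + 1) ^ k)) = m * P * (L + 1) ^ (k + 2 * m) := by
          rw [pow_add]; ring
      _ ≤ m * P * (3 * (L' + 1)) ^ (k + 2 * m) := Nat.mul_le_mul_left _ (Nat.pow_le_pow_left h1 _)
      _ = m * (P * 3 ^ (k + 2 * m)) * (L' + 1) ^ (k + 2 * m) := by rw [mul_pow]; ring
  · intro h _
    obtain ⟨i, x, y, hx, hcx, hx1, hchain, hy1⟩ := Hex.hex L m (by omega) (fun x => col (φ h x))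
    have hkey : ∀ z, Relation.ReflTransGen (Hex.Step L (fun x => col (φ h x)) i) x z →
        (∀ k, z k ≤ L) ∧ ∃ Y ∈ 𝓕 i, φ h x ∈ Y ∧ φ h z ∈ Y := by
      intro z hz
      induction hz with
      | refl =>
        refine ⟨hx, ?_⟩
        obtain ⟨Y, hY, hmem⟩ := hcol' (φ h x)
        have hcx' : col (φ h x) = i := hcx
        rw [hcx'] at hY
        exact ⟨Y, hY, hmem, hmem⟩
      | @tail u v huv hstep ih =>
        obtain ⟨hv, hcv, h1, h2⟩ := hstep
        refine ⟨hv, ?_⟩
        obtain ⟨_, Y, hY, hxY, huY⟩ := ih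
        obtain ⟨Y', hY', hmem⟩ := hcol' (φ h v)
        have hcv' : col (φ h v) = i := hcv
        rw [hcv'] at hY'
        by_cases hYY : Y = Y'
        · subst hYY
          exact ⟨Y, hY, hxY, hmem⟩
        · have h3 := hdisj i Y hY Y' hY' hYY _ huY _ hmem
          have h4 := hclose h u v h1 h2
          exfalso
          have : (m : ℝ) * (D * 2) + 1 ≤ m * (D * 2) := by
            exact h3.trans h4
          linarith
    obtain ⟨hyL, hY⟩ := hkey y hchain
    refine ⟨i, x, ?_, y, ?_, hyL, hx1, hy1, hY⟩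
    · rw [Fintype.mem_piFinset]
      intro k
      rw [Finset.mem_range]
      have := hx k
      omega
    · rw [Fintype.mem_piFinset]
      intro k
      rw [Finset.mem_range]
      have := hyL k
      omega
  · intro i x y a F hF
    -- the point where the chain starts does not depend on `h i`
    rcases F.eq_empty_or_nonempty with hemp | ⟨h₀, hh₀⟩
    · rw [hemp]; simp
    · set p : G := Φ (Function.update (fun j => γ j (a j) (x j)) i 1) with hp
      set q : G := Φ (Function.update (fun j => γ j (a j) (y j)) i 1) with hq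
      have hmemF : ∀ h ∈ F, (∀ j, h j ∈ T j ^ L') ∧ (∀ k, y k ≤ L) ∧ x i ≤ 1 ∧ L ≤ y i + 1 ∧
          (∃ Y ∈ 𝓕 i, φ h x ∈ Y ∧ φ h y ∈ Y) ∧ Function.update h i 1 = a := by
        intro h hh'
        have hh := hF h hh'
        exact ⟨hh.1, hh.2.1.1, hh.2.1.2.1, hh.2.1.2.2.1, hh.2.1.2.2.2, hh.2.2⟩
      have hpx : ∀ h ∈ F, φ h x = p := by
        intro h hh
        obtain ⟨hT, _, hx1, _, _, hup⟩ := hmemF h hh
        rw [hp, hφ]
        simp only
        congr 1
        funext j
        by_cases hj : j = i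
        · subst hj
          rw [Function.update_self, hγ0 j (h j) (x j) hx1]
        · rw [Function.update_of_ne hj, ← hup, Function.update_of_ne hj]
      have hqy : ∀ h ∈ F, φ h y = q * h i := by
        intro h hh
        obtain ⟨hT, _, _, hy1, _, hup⟩ := hmemF h hh
        have e1 : (γ i (h i) (y i) : G) = h i := hγe i (h i) (hT i) (y i) hy1
        have e2 : (fun j => γ j (h j) (y j)) =
            Function.update (fun j => γ j (a j) (y j)) i 1 * Pi.mulSingle i (γ i (h i) (y i)) := by
          funext j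
          rw [Pi.mul_apply]
          by_cases hj : j = i
          · subst hj
            rw [Function.update_self, Pi.mulSingle_eq_same, one_mul]
          · rw [Function.update_of_ne hj, Pi.mulSingle_eq_of_ne hj, mul_one, ← hup,
              Function.update_of_ne hj]
        rw [hφ]
        simp only
        rw [e2, map_mul, ← hq, hΦ, Subgroup.noncommPiCoprod_mulSingle, e1]
      obtain ⟨_, hyL, _, _, ⟨Y₀, hY₀, hxY₀, hyY₀⟩, hup₀⟩ := hmemF h₀ hh₀
      rw [hpx h₀ hh₀] at hxY₀
      have hin : ∀ h ∈ F, φ h y ∈ Y₀ ∩ Metric.closedBall 1 (((m * D : ℕ) : ℝ) * L) := by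
        intro h hh
        obtain ⟨_, _, _, _, ⟨Y, hY, hxY, hyY⟩, _⟩ := hmemF h hh
        rw [hpx h hh] at hxY
        have hYY : Y = Y₀ := by
          by_contra hne
          have h3 := hdisj i Y hY Y₀ hY₀ hne p hxY p hxY₀
          rw [dist_self] at h3
          have : (0 : ℝ) < m * (D * 2) + 1 := by positivity
          linarith
        rw [← hYY]
        exact ⟨hyY, Metric.mem_closedBall.mpr (hfar h y hyL)⟩
      have hinj : Set.InjOn (fun h => φ h y) (F : Set (Fin m → G)) := by
        intro h hh h' hh' heq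
        simp only at heq
        rw [hqy h hh, hqy h' hh'] at heq
        have h1 := mul_left_cancel heq
        obtain ⟨_, _, _, _, _, hup⟩ := hmemF h hh
        obtain ⟨_, _, _, _, _, hup'⟩ := hmemF h' hh'
        funext j
        by_cases hj : j = i
        · subst hj; exact h1
        · have e1 : Function.update h i 1 j = Function.update h' i 1 j := by rw [hup, hup']
          rwa [Function.update_of_ne hj, Function.update_of_ne hj] at e1
      have h1 : (F : Set (Fin m → G)).encard ≤
          (Y₀ ∩ Metric.closedBall 1 (((m * D : ℕ) : ℝ) * L)).encard :=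
        Set.encard_le_encard_of_injOn hin hinj
      have h2 := hP Y₀ (hsub i hY₀) L 1
      rw [Set.encard_coe_eq_coe_finsetCard] at h1
      exact_mod_cast h1.trans h2

end Pool.Agent.Helper20.OutF
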