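import Pool.Agent.Helper20.Out.Fixed
import Pool.Agent.Helper20.Out.Defs

/-!
The `2n-4` pairwise commuting free subgroups of rank two of the outer automorphism group of the free group of
rank `n ≥ 3`: the automorphisms `x_j ↦ u⁻¹ x_j v` with `j ≥ 3`, `u, v` in the subgroup generated by the first two generators.
-/

set_option autoImplicit false

namespace Pool.Agent.Helper20.OutF

open Pointwise
open FreeGroup (of)
open Pool.Agent.Helper30 Pool.Agent.Helper30.WHyp

variable {n : ℕ}

/-- inclusion of the free group on the first two generators -/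
def iota (hn : 2 ≤ n) : FreeGroup (Fin 2) →* FreeGroup (Fin n) := FreeGroup.map (Fin.castLE hn)

/-- retraction to the free group on the first two generators -/
def rho : FreeGroup (Fin n) →* FreeGroup (Fin 2) :=
  FreeGroup.lift fun i => if h : (i : ℕ) < 2 then of ⟨i, h⟩ else 1

theorem rho_iota (hn : 2 ≤ n) (u : FreeGroup (Fin 2)) : rho (iota hn u) = u := by
  have h : (rho (n := n)).comp (iota hn) = MonoidHom.id _ := by
    ext i
    have hi := i.2
    simp only [MonoidHom.comp_apply, iota, FreeGroup.map.of, rho, FreeGroup.lift_apply_of,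
      MonoidHom.id_apply]
    rw [dif_pos (show ((Fin.castLE hn i : Fin n) : ℕ) < 2 from hi)]
    rfl
  exact DFunLike.congr_fun h u

/-- the endomorphism `x_j ↦ u⁻¹ x_j v` -/
def tau (hn : 2 ≤ n) (j : Fin n) (u v : FreeGroup (Fin 2)) :
    FreeGroup (Fin n) →* FreeGroup (Fin n) :=
  FreeGroup.lift fun i => if i = j then (iota hn u)⁻¹ * of j * iota hn v else of i

theorem tau_self (hn : 2 ≤ n) (j : Fin n) (u v : FreeGroup (Fin 2)) :
    tau hn j u v (of j) = (iota hn u)⁻¹ * of j * iota hn v := by
  simp [tau]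

theorem tau_ne (hn : 2 ≤ n) (i j : Fin n) (hij : i ≠ j) (u v : FreeGroup (Fin 2)) :
    tau hn j u v (of i) = of i := by
  simp [tau, hij]

theorem tau_iota (hn : 2 ≤ n) (j : Fin n) (hj : 2 ≤ (j : ℕ)) (u v w : FreeGroup (Fin 2)) :
    tau hn j u v (iota hn w) = iota hn w := by
  have h : (tau hn j u v).comp (iota hn) = iota hn := by
    ext i
    have h1 : Fin.castLE hn i ≠ j := by
      intro h2
      have h3 := congrArg Fin.val h2
      rw [Fin.val_castLE] at h3
      omega
    simp only [MonoidHom.comp_apply, iota, FreeGroup.map.of]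
    exact tau_ne hn _ j h1 u v
  exact DFunLike.congr_fun h w

theorem tau_tau (hn : 2 ≤ n) (j : Fin n) (hj : 2 ≤ (j : ℕ)) (u v u' v' : FreeGroup (Fin 2)) :
    (tau hn j u v).comp (tau hn j u' v') = tau hn j (u * u') (v * v') := by
  ext i
  rw [MonoidHom.comp_apply]
  by_cases hij : i = j
  · subst hij
    rw [tau_self, tau_self, map_mul, map_mul, map_inv, tau_iota hn i hj, tau_iota hn i hj, tau_self,
      map_mul, map_mul, mul_inv_rev]
    group
  · rw [tau_ne hn i j hij, tau_ne hn i j hij, tau_ne hn i j hij]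

theorem tau_one (hn : 2 ≤ n) (j : Fin n) : tau hn j 1 1 = MonoidHom.id _ := by
  ext i
  by_cases hij : i = j
  · subst hij
    rw [tau_self]
    simp
  · rw [tau_ne hn i j hij]
    rfl

theorem tau_comm (hn : 2 ≤ n) (i j : Fin n) (hi : 2 ≤ (i : ℕ)) (hj : 2 ≤ (j : ℕ)) (hij : i ≠ j)
    (u v u' v' : FreeGroup (Fin 2)) :
    (tau hn i u v).comp (tau hn j u' v') = (tau hn j u' v').comp (tau hn i u v) := by
  ext k
  rw [MonoidHom.comp_apply, MonoidHom.comp_apply]
  by_cases hki : k = i
  · subst hki
    rw [tau_ne hn k j hij, tau_self, map_mul, map_mul, map_inv, tau_iota hn j hj,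
      tau_iota hn j hj, tau_ne hn k j hij]
  · by_cases hkj : k = j
    · subst hkj
      rw [tau_ne hn k i hki, tau_self, map_mul, map_mul, map_inv, tau_iota hn i hi,
        tau_iota hn i hi, tau_ne hn k i hki]
    · rw [tau_ne hn k j hkj, tau_ne hn k i hki, tau_ne hn k j hkj]

/-- the automorphism `x_j ↦ u⁻¹ x_j v` -/
def Aj (hn : 2 ≤ n) (j : Fin n) (hj : 2 ≤ (j : ℕ)) (u v : FreeGroup (Fin 2)) :
    MulAut (FreeGroup (Fin n)) :=
  MonoidHom.toMulEquiv (tau hn j u v) (tau hn j u⁻¹ v⁻¹)
    (by rw [tau_tau hn j hj, inv_mul_cancel, inv_mul_cancel, tau_one])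
    (by rw [tau_tau hn j hj, mul_inv_cancel, mul_inv_cancel, tau_one])

theorem Aj_apply (hn : 2 ≤ n) (j : Fin n) (hj : 2 ≤ (j : ℕ)) (u v : FreeGroup (Fin 2))
    (x : FreeGroup (Fin n)) : Aj hn j hj u v x = tau hn j u v x := rfl

theorem Aj_mul (hn : 2 ≤ n) (j : Fin n) (hj : 2 ≤ (j : ℕ)) (u v u' v' : FreeGroup (Fin 2)) :
    Aj hn j hj u v * Aj hn j hj u' v' = Aj hn j hj (u * u') (v * v') := by
  ext x
  rw [MulAut.mul_apply, Aj_apply, Aj_apply, Aj_apply, ← tau_tau hn j hj]
  rfl

theorem Aj_comm (hn : 2 ≤ n) (i j : Fin n) (hi : 2 ≤ (i : ℕ)) (hj : 2 ≤ (j : ℕ)) (hij : i ≠ j)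
    (u v u' v' : FreeGroup (Fin 2)) : Commute (Aj hn i hi u v) (Aj hn j hj u' v') := by
  unfold Commute SemiconjBy
  ext x
  rw [MulAut.mul_apply, MulAut.mul_apply, Aj_apply, Aj_apply, Aj_apply, Aj_apply]
  exact DFunLike.congr_fun (tau_comm hn i j hi hj hij u v u' v') x

/-- left or right twists as a homomorphism to the outer automorphism group -/
def psi (hn : 2 ≤ n) (j : Fin n) (hj : 2 ≤ (j : ℕ)) (s : Bool) :
    FreeGroup (Fin 2) →* OutFree n where
  toFun u := QuotientGroup.mk (Aj hn j hj (if s then u else 1) (if s then 1 else u))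
  map_one' := by
    have h : Aj hn j hj 1 1 = 1 := by
      ext x
      rw [Aj_apply, tau_one]
      rfl
    cases s <;> simp [h]
  map_mul' u v := by
    rw [← QuotientGroup.mk_mul, Aj_mul]
    cases s <;> simp

theorem psi_injective (hn : 2 ≤ n) (j : Fin n) (hj : 2 ≤ (j : ℕ)) (s : Bool) :
    Function.Injective (psi hn j hj s) := by
  rw [injective_iff_map_eq_one]
  intro u hu
  have h1 : Aj hn j hj (if s then u else 1) (if s then 1 else u) ∈ Inn n :=
    (QuotientGroup.eq_one_iff _).1 hu
  obtain ⟨g, hg⟩ := h1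
  have h2 := DFunLike.congr_fun hg (of j)
  rw [MulAut.conj_apply, Aj_apply, tau_self] at h2
  have h3 := congrArg rho h2
  have h4 : rho (of j) = 1 := by
    simp only [rho, FreeGroup.lift_apply_of]
    rw [dif_neg (not_lt.2 hj)]
  rw [map_mul, map_mul, map_mul, map_mul, map_inv, map_inv, h4, rho_iota, rho_iota, mul_one,
    mul_one, mul_inv_cancel] at h3
  cases s
  · simpa using h3.symm
  · simpa using h3.symm

theorem psi_comm (hn : 2 ≤ n) (i j : Fin n) (hi : 2 ≤ (i : ℕ)) (hj : 2 ≤ (j : ℕ)) (s t : Bool)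
    (h : i ≠ j ∨ s ≠ t) (u v : FreeGroup (Fin 2)) :
    Commute (psi hn i hi s u) (psi hn j hj t v) := by
  unfold psi
  simp only [MonoidHom.coe_mk, OneHom.coe_mk]
  have h1 : Commute (Aj hn i hi (if s then u else 1) (if s then 1 else u))
      (Aj hn j hj (if t then v else 1) (if t then 1 else v)) := by
    by_cases hij : i = j
    · subst hij
      have hst : s ≠ t := h.resolve_left (fun h => h rfl)
      unfold Commute SemiconjBy
      rw [Aj_mul, Aj_mul]
      cases s <;> cases t <;> simp_all
    · exact Aj_comm hn i j hi hj hij _ _ _ _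
  unfold Commute SemiconjBy at h1 ⊢
  rw [← QuotientGroup.mk_mul, ← QuotientGroup.mk_mul, h1]

/-- positive words are reduced -/
theorem reduce_pos {α : Type} [DecidableEq α] (l : List α) :
    FreeGroup.reduce (l.map fun a => (a, true)) = l.map fun a => (a, true) := by
  induction l with
  | nil => rfl
  | cons a l ih =>
    rw [List.map_cons, FreeGroup.reduce.cons, ih]
    cases l with
    | nil => rfl
    | cons b l => simp

theorem prod_of {α : Type} (l : List α) :
    (l.map fun a => (of a : FreeGroup α)).prod = FreeGroup.mk (l.map fun a => (a, true)) := by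
  induction l with
  | nil => rfl
  | cons a l ih =>
    rw [List.map_cons, List.prod_cons, ih, List.map_cons]
    rfl

theorem prod_of_injective {α : Type} [DecidableEq α] (l l' : List α)
    (h : (l.map fun a => (of a : FreeGroup α)).prod = (l'.map fun a => (of a : FreeGroup α)).prod) :
    l = l' := by
  rw [prod_of, prod_of] at h
  have h1 := congrArg FreeGroup.toWord h
  rw [FreeGroup.toWord_mk, FreeGroup.toWord_mk, reduce_pos, reduce_pos] at h1
  have h2 := congrArg (List.map Prod.fst) h1
  simpa [List.map_map, Function.comp_def] using h2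

open Classical in
/-- growth of the image of a free group -/
theorem growth {H : Type} [Group H] (f : FreeGroup (Fin 2) →* H) (hf : Function.Injective f)
    (T : Finset H) (hT : ∀ i, f (of i) ∈ T) (L : ℕ) : 2 ^ L ≤ (T ^ L).card := by
  have h1 : (Finset.univ : Finset (Fin L → Fin 2)).card ≤ (T ^ L).card := by
    refine Finset.card_le_card_of_injOn (fun w => (List.ofFn fun k => f (of (w k))).prod) ?_ ?_
    · intro w _
      rw [Finset.mem_coe, Finset.mem_pow]
      exact ⟨fun k => ⟨f (of (w k)), hT _⟩, rfl⟩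
    · intro w _ w' _ hw
      have h2 : ∀ w : Fin L → Fin 2, (List.ofFn fun k => f (of (w k))).prod =
          f (((List.ofFn w).map fun a => (of a : FreeGroup (Fin 2))).prod) := by
        intro w
        rw [map_list_prod, List.map_map, List.map_ofFn]
        rfl
      simp only [h2] at hw
      exact List.ofFn_injective (prod_of_injective _ _ (hf hw))
  simpa using h1

open Classical in
/-- the outer automorphism group of the free group of rank `n ≥ 3` has weak hyperbolic dimension at least `2n - 4` -/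
theorem out_lower (hn : 3 ≤ n) (S : Set (OutFree n)) (hfin : S.Finite)
    (hS : Subgroup.closure S = ⊤) :
    ((2 * n - 4 : ℕ) : ℕ∞) ≤ @weakHyperbolicDimension (OutFree n) (wordMetric S hS) := by
  have hn2 : 2 ≤ n := by omega
  have hj : ∀ i : Fin (2 * n - 4), 2 + (i : ℕ) / 2 < n := fun i => by
    have := i.2
    omega
  let _ := wordMetric S hS
  refine criterion_lower (G := OutFree n) hfin hS (fun g h => rfl) (2 * n - 4)
    (fun i => insert 1 (Finset.univ.image fun a : Fin 2 =>
      psi hn2 ⟨2 + (i : ℕ) / 2, hj i⟩ (Nat.le_add_right _ _) (decide ((i : ℕ) % 2 = 0)) (of a)))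
    (fun i => Finset.mem_insert_self _ _) ?_ ?_
  · intro i i' hii s hs t ht
    rw [Finset.mem_insert] at hs ht
    rcases hs with rfl | hs
    · exact Commute.one_left t
    rcases ht with rfl | ht
    · exact Commute.one_right s
    obtain ⟨a, _, rfl⟩ := Finset.mem_image.1 hs
    obtain ⟨b, _, rfl⟩ := Finset.mem_image.1 ht
    apply psi_comm
    by_contra hcon
    push Not at hcon
    obtain ⟨h1, h2⟩ := hcon
    have h3 := congrArg Fin.val h1
    simp only at h3
    have h4 : ((i : ℕ) % 2 = 0) ↔ ((i' : ℕ) % 2 = 0) := decide_eq_decide.1 h2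
    apply hii
    ext
    omega
  · intro k C
    obtain ⟨L, hL⟩ : ∃ L : ℕ, C * (L + 1) ^ k < 2 ^ L := by
      have h1 := (tendsto_pow_const_div_const_pow_of_one_lt k (r := (2 : ℝ)) (by norm_num))
      have h2 : Filter.Tendsto (fun L : ℕ => ((L + 1 : ℕ) : ℝ) ^ k / 2 ^ (L + 1)) Filter.atTop (nhds 0) :=
        h1.comp (Filter.tendsto_add_atTop_nat 1)
      have h3 := (h2.eventually (gt_mem_nhds (show (0 : ℝ) < 1 / (2 * (C + 1)) by positivity))).exists
      obtain ⟨L, hL⟩ := h3
      refine ⟨L, ?_⟩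
      rw [div_lt_div_iff₀ (by positivity) (by positivity), one_mul, pow_succ] at hL
      have h4 : (C : ℝ) * ((L + 1 : ℕ) : ℝ) ^ k < 2 ^ L := by
        have h5 : (0 : ℝ) < ((L + 1 : ℕ) : ℝ) ^ k := by positivity
        nlinarith
      exact_mod_cast h4
    refine ⟨L, fun i => hL.trans_le ?_⟩
    exact growth (psi hn2 ⟨2 + (i : ℕ) / 2, hj i⟩ (Nat.le_add_right _ _) (decide ((i : ℕ) % 2 = 0)))
      (psi_injective _ _ _ _) _
      (fun a => Finset.mem_insert_of_mem (Finset.mem_image.2 ⟨a, Finset.mem_univ _, rfl⟩)) L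

end Pool.Agent.Helper20.OutF
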